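import Pool.Agent.Lib.MP_1cdd17_nt.Gen

set_option autoImplicit false

open Pool.Agent.MP_1cdd17_nt Filter

/-- On the unit circle, off the roots of unity, the continued fraction `K(x)` converges nowhere,
it does not even converge in the general sense (Jacobsen) anywhere, and at every such point
`A_{n-1}, B_{n-1}, A_n, B_n` are bounded by a constant for infinitely many `n`. -/
theorem Pool.Agent.Results.MP_1cdd17_nt.GeneralDivergence.result :
    {x : ℂ | ‖x‖ = 1 ∧ (∀ n : ℕ, 0 < n → x ^ n ≠ 1) ∧ Converges x} = ∅ ∧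
    {x : ℂ | ‖x‖ = 1 ∧ (∀ n : ℕ, 0 < n → x ^ n ≠ 1) ∧ ConvergesGenerally x} = ∅ ∧
    ∀ x : ℂ, ‖x‖ = 1 → (∀ n : ℕ, 0 < n → x ^ n ≠ 1) → ∃ C : ℝ, ∃ᶠ n in atTop,
      ‖numA x n‖ ≤ C ∧ ‖denB x n‖ ≤ C ∧ ‖numA x (n + 1)‖ ≤ C ∧ ‖denB x (n + 1)‖ ≤ C := by
  have key : ∀ x : ℂ, ‖x‖ = 1 → (∀ n : ℕ, 0 < n → x ^ n ≠ 1) → ∃ C : ℝ, ∃ᶠ n in atTop,
      ‖numA x n‖ ≤ C ∧ ‖denB x n‖ ≤ C ∧ ‖numA x (n + 1)‖ ≤ C ∧ ‖denB x (n + 1)‖ ≤ C := by
    intro x hx hroot
    obtain ⟨θ, hθ⟩ := Complex.norm_eq_one_iff x |>.1 hx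
    have hx2 : x = e (θ / (2 * Real.pi)) := by
      rw [← hθ, e]
      congr 1
      push_cast
      have : (Real.pi : ℂ) ≠ 0 := by exact_mod_cast Real.pi_ne_zero
      field_simp
    have hirr : Irrational (θ / (2 * Real.pi)) := by
      rintro ⟨r, hr⟩
      apply hroot r.den r.den_pos
      rw [hx2, ← hr, e, ← Complex.exp_nat_mul, Complex.exp_eq_one_iff]
      refine ⟨r.num, ?_⟩
      have h1 : ((r : ℝ) : ℂ) = (r.num : ℂ) / (r.den : ℂ) := by
        push_cast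
        exact_mod_cast (Rat.num_div_den r).symm
      have h2 : (r.den : ℂ) ≠ 0 := by exact_mod_cast r.den_pos.ne'
      rw [h1]
      field_simp
    rw [hx2]
    exact frequently_bounded_of_mainLemma Pool.Agent.Lib.MP_1cdd17_nt.mainLemma hirr
  have gen : ∀ x : ℂ, ‖x‖ = 1 → (∀ n : ℕ, 0 < n → x ^ n ≠ 1) → ¬ ConvergesGenerally x := by
    intro x hx hroot
    obtain ⟨C, hC⟩ := key x hx hroot
    exact not_convergesGenerally_of_frequently_bounded hx hC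
  refine ⟨?_, ?_, key⟩
  · rw [Set.eq_empty_iff_forall_notMem]
    rintro x ⟨hx, hroot, hconv⟩
    exact gen x hx hroot hconv.convergesGenerally
  · rw [Set.eq_empty_iff_forall_notMem]
    rintro x ⟨hx, hroot, hconv⟩
    exact gen x hx hroot hconv
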